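import Mathlib
import Pool.Agent.H525.QF.Stm

/-!
# Project QF (helper525), tasks FLIP, LAM and DIV: divisor sums of the Möbius function (helper870)
-/

namespace Pool.Agent.H870.QF

open Polynomial
open Pool.Agent.H985.Chow (mob)
open Pool.Agent.H525.QF
open scoped Classical

section mob

variable {K : Type} [Field K]

theorem mob_eq (F : K[X]) : mob F = if Squarefree F then
    (-1) ^ Multiset.card (UniqueFactorizationMonoid.factors F) else 0 := rfl

theorem mob_mul {F G : K[X]} (h : Squarefree (F * G)) : mob (F * G) = mob F * mob G := by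
  have h1 := squarefree_mul_iff.1 h
  rw [mob_eq, mob_eq, mob_eq, if_pos h1.2.1, if_pos h1.2.2, if_pos h, ← pow_add]
  congr 1
  rw [Multiset.card_eq_card_of_rel
    (UniqueFactorizationMonoid.factors_mul h1.2.1.ne_zero h1.2.2.ne_zero), Multiset.card_add]

theorem mob_mul_self {F : K[X]} (h : Squarefree F) : mob F * mob F = 1 := by
  rw [mob_eq, if_pos h, ← mul_pow]
  norm_num

theorem mob_one : mob (1 : K[X]) = 1 := by
  rw [mob_eq, if_pos squarefree_one]
  have h : UniqueFactorizationMonoid.factors (1 : K[X]) = 0 :=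
    UniqueFactorizationMonoid.factors_one
  rw [h]
  simp

theorem mob_irr {P : K[X]} (hP : Irreducible P) : mob P = -1 := by
  rw [mob_eq, if_pos hP.squarefree]
  have h1 : Multiset.Rel Associated (UniqueFactorizationMonoid.factors P)
      ({P} : Multiset K[X]) := by
    refine UniqueFactorizationMonoid.factors_unique
      (fun x hx => UniqueFactorizationMonoid.irreducible_of_factor x hx) ?_ ?_
    · intro x hx
      rw [Multiset.mem_singleton] at hx
      rw [hx]; exact hP
    · rw [Multiset.prod_singleton]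
      exact UniqueFactorizationMonoid.factors_prod hP.ne_zero
  rw [Multiset.card_eq_card_of_rel h1]
  simp

end mob

section flip

variable {K : Type} [Field K] [Fintype K]

/-- the facts on the complementary divisor -/
theorem quot {f d : K[X]} (hf : f.Monic) (hd : d ∈ mdiv f) :
    d * (f / d) = f ∧ f / d ∈ mdiv f ∧ d.Monic ∧ (f / d).Monic ∧
      d.natDegree + (f / d).natDegree = f.natDegree ∧ f / (f / d) = d := by
  rw [mem_mdiv hf.ne_zero] at hd
  have h1 : d * (f / d) = f := EuclideanDomain.mul_div_cancel' hd.1.ne_zero hd.2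
  have h2 : (f / d).Monic := Monic.of_mul_monic_left hd.1 (h1.symm ▸ hf)
  refine ⟨h1, ?_, hd.1, h2, ?_, ?_⟩
  · rw [mem_mdiv hf.ne_zero]
    exact ⟨h2, Dvd.intro_left d h1⟩
  · rw [← hd.1.natDegree_mul h2, h1]
  · have h3 : f / d * (f / (f / d)) = f :=
      EuclideanDomain.mul_div_cancel' h2.ne_zero (Dvd.intro_left d h1)
    have h4 : f / d * (f / (f / d)) = f / d * d := by rw [h3, mul_comm, h1]
    exact mul_left_cancel₀ h2.ne_zero h4

theorem t_flip : S_flip := by
  intro K _ _ f hf _ k hk
  refine Finset.card_nbij' (fun d => f / d) (fun d => f / d) ?_ ?_ ?_ ?_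
  · intro d hd
    rw [Finset.mem_coe, Finset.mem_filter] at hd
    obtain ⟨-, h2, -, -, h5, -⟩ := quot hf hd.1
    rw [Finset.mem_coe, Finset.mem_filter]
    refine ⟨h2, ?_⟩
    have := hd.2
    show (f / d).natDegree = _
    omega
  · intro d hd
    rw [Finset.mem_coe, Finset.mem_filter] at hd
    obtain ⟨-, h2, -, -, h5, -⟩ := quot hf hd.1
    rw [Finset.mem_coe, Finset.mem_filter]
    refine ⟨h2, ?_⟩
    have := hd.2
    show (f / d).natDegree = _
    omega
  · intro d hd
    rw [Finset.mem_coe, Finset.mem_filter] at hd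
    exact (quot hf hd.1).2.2.2.2.2
  · intro d hd
    rw [Finset.mem_coe, Finset.mem_filter] at hd
    exact (quot hf hd.1).2.2.2.2.2

end flip

section div

variable {K : Type} [Field K] [Fintype K]

theorem mdiv_one : mdiv (1 : K[X]) = {1} := by
  ext d
  rw [mem_mdiv one_ne_zero, Finset.mem_singleton]
  constructor
  · rintro ⟨h1, h2⟩
    exact h1.eq_one_of_isUnit (isUnit_of_dvd_one h2)
  · rintro rfl
    exact ⟨monic_one, dvd_rfl⟩

/-- the divisors of `P * g` -/
theorem sum_mdiv {P g : K[X]} (hP : P.Monic) (hPi : Irreducible P) (hg : g.Monic)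
    (hs : Squarefree (P * g)) (T : K[X] → ℤ) :
    ∑ a ∈ mdiv (P * g), T a = ∑ a ∈ mdiv g, T a + ∑ a ∈ mdiv g, T (P * a) := by
  have hPg : P * g ≠ 0 := (hP.mul hg).ne_zero
  have hnd : ∀ a, a ∣ g → ¬ P ∣ a := by
    intro a ha hPa
    have h2 : P * P ∣ P * g := mul_dvd_mul_left P (hPa.trans ha)
    exact hPi.not_isUnit (hs P h2)
  have h1 : mdiv (P * g) = mdiv g ∪ (mdiv g).image (fun a => P * a) := by
    ext d
    rw [Finset.mem_union, Finset.mem_image, mem_mdiv hPg, mem_mdiv hg.ne_zero]
    constructor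
    · rintro ⟨hd, hdd⟩
      by_cases hPd : P ∣ d
      · right
        obtain ⟨a, rfl⟩ := hPd
        refine ⟨a, ?_, rfl⟩
        rw [mem_mdiv hg.ne_zero]
        exact ⟨hP.of_mul_monic_left hd, (mul_dvd_mul_iff_left hP.ne_zero).mp hdd⟩
      · left
        refine ⟨hd, ?_⟩
        have hc : IsCoprime P d := (hPi.coprime_iff_not_dvd).mpr hPd
        exact hc.symm.dvd_of_dvd_mul_left hdd
    · rintro (⟨hd, hdd⟩ | ⟨a, ha, rfl⟩)
      · exact ⟨hd, hdd.mul_left P⟩
      · rw [mem_mdiv hg.ne_zero] at ha
        exact ⟨hP.mul ha.1, mul_dvd_mul_left P ha.2⟩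
  rw [h1, Finset.sum_union, Finset.sum_image]
  · intro a _ b _ hab
    exact mul_left_cancel₀ hP.ne_zero hab
  · rw [Finset.disjoint_left]
    intro d hd hd2
    rw [Finset.mem_image] at hd2
    obtain ⟨a, -, rfl⟩ := hd2
    rw [mem_mdiv hg.ne_zero] at hd
    exact hnd _ hd.2 (dvd_mul_right P a)

omit [Fintype K] in
theorem mob_P {P g a : K[X]} (hPi : Irreducible P) (hs : Squarefree (P * g)) (ha : a ∣ g) :
    mob (P * a) = - mob a := by
  rw [mob_mul (hs.squarefree_of_dvd (mul_dvd_mul_left P ha)), mob_irr hPi]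
  ring

theorem sum_zero {P g : K[X]} (hP : P.Monic) (hPi : Irreducible P) (hg : g.Monic)
    (hs : Squarefree (P * g)) : ∑ a ∈ mdiv (P * g), mob a = 0 := by
  rw [sum_mdiv hP hPi hg hs]
  have h1 : ∑ a ∈ mdiv g, mob (P * a) = ∑ a ∈ mdiv g, - mob a := by
    refine Finset.sum_congr rfl fun a ha => ?_
    rw [mem_mdiv hg.ne_zero] at ha
    exact mob_P hPi hs ha.2
  rw [h1, Finset.sum_neg_distrib]
  ring

theorem sum_one {g : K[X]} (hg : g.Monic) (hs : Squarefree g) :
    ∑ a ∈ mdiv g, mob a = if g = 1 then 1 else 0 := by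
  split_ifs with h
  · rw [h, mdiv_one, Finset.sum_singleton, mob_one]
  · have hu : ¬ IsUnit g := fun hu => h (hg.eq_one_of_isUnit hu)
    obtain ⟨P, hPm, hPi, g', hg'⟩ := exists_monic_irreducible_factor g hu
    subst hg'
    exact sum_zero hPm hPi (hPm.of_mul_monic_left hg) hs

theorem t_div : S_div := by
  intro K _ _ g hg hs
  refine ⟨sum_one hg hs, ?_⟩
  by_cases h : g = 1
  · subst h
    rw [mdiv_one, Finset.sum_singleton, natDegree_one, if_neg not_irreducible_one]
    simp
  · have hu : ¬ IsUnit g := fun hu => h (hg.eq_one_of_isUnit hu)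
    obtain ⟨P, hPm, hPi, g', hg'⟩ := exists_monic_irreducible_factor g hu
    subst hg'
    have hgm : g'.Monic := hPm.of_mul_monic_left hg
    have hs' : Squarefree g' := hs.squarefree_of_dvd (dvd_mul_left _ _)
    rw [sum_mdiv hPm hPi hgm hs]
    have h1 : ∑ a ∈ mdiv g', mob (P * a) * ((P * a).natDegree : ℤ) =
        ∑ a ∈ mdiv g', (-(P.natDegree : ℤ) * mob a - mob a * (a.natDegree : ℤ)) := by
      refine Finset.sum_congr rfl fun a ha => ?_
      rw [mem_mdiv hgm.ne_zero] at ha
      rw [mob_P hPi hs ha.2, hPm.natDegree_mul ha.1]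
      push_cast
      ring
    rw [h1, Finset.sum_sub_distrib, ← Finset.mul_sum, sum_one hgm hs']
    by_cases hg1 : g' = 1
    · subst hg1
      rw [if_pos rfl, mul_one, if_pos (by rw [mul_one]; exact hPi), mul_one]
      ring
    · have hni : ¬ Irreducible (P * g') := by
        intro hi
        rcases hi.isUnit_or_isUnit rfl with h2 | h2
        · exact hPi.not_isUnit h2
        · exact hg1 (hgm.eq_one_of_isUnit h2)
      rw [if_neg hg1, if_neg hni]
      ring

theorem t_lam : S_lam := by
  intro K _ _ f N hf hs hN hmob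
  have hdiv := t_div K f hf hs
  have hf1 : f ≠ 1 := by
    rintro rfl
    rw [mob_one] at hmob
    norm_num at hmob
  rw [if_neg hf1] at hdiv
  obtain ⟨h0, h1⟩ := hdiv
  set φ : K[X] → ℤ := fun d => mob d * ((N : ℤ) - 2 * d.natDegree) with hφ
  have htot : ∑ d ∈ mdiv f, φ d = if Irreducible f then 2 * (N : ℤ) else 0 := by
    have h2 : ∀ d ∈ mdiv f, φ d = (N : ℤ) * mob d - 2 * (mob d * (d.natDegree : ℤ)) := by
      intro d _
      simp only [hφ]
      ring
    rw [Finset.sum_congr rfl h2, Finset.sum_sub_distrib, ← Finset.mul_sum, ← Finset.mul_sum,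
      h0, h1]
    split_ifs
    · rw [hN]
      ring
    · ring
  have hflip : ∑ d ∈ (mdiv f).filter (fun d => ¬ 2 * d.natDegree < N), φ d =
      ∑ d ∈ (mdiv f).filter (fun d => 2 * d.natDegree < N), φ d := by
    have h3 : ∑ d ∈ (mdiv f).filter (fun d => ¬ 2 * d.natDegree < N), φ d =
        ∑ d ∈ (mdiv f).filter (fun d => N < 2 * d.natDegree), φ d := by
      symm
      refine Finset.sum_subset ?_ ?_
      · intro d hd
        rw [Finset.mem_filter] at hd ⊢
        exact ⟨hd.1, by omega⟩
      · intro d hd hd2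
        rw [Finset.mem_filter] at hd
        rw [Finset.mem_filter] at hd2
        have h4 : 2 * d.natDegree = N := by
          have h5 : ¬ N < 2 * d.natDegree := fun h => hd2 ⟨hd.1, h⟩
          have := hd.2
          omega
        simp only [hφ]
        have h6 : (N : ℤ) - 2 * d.natDegree = 0 := by
          rw [← h4]
          push_cast
          ring
        rw [h6, mul_zero]
    rw [h3]
    refine Finset.sum_nbij' (fun d => f / d) (fun d => f / d) ?_ ?_ ?_ ?_ ?_
    · intro d hd
      rw [Finset.mem_filter] at hd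
      obtain ⟨-, h2, -, -, h5, -⟩ := quot hf hd.1
      rw [Finset.mem_filter]
      refine ⟨h2, ?_⟩
      have := hd.2
      omega
    · intro d hd
      rw [Finset.mem_filter] at hd
      obtain ⟨-, h2, -, -, h5, -⟩ := quot hf hd.1
      rw [Finset.mem_filter]
      refine ⟨h2, ?_⟩
      have := hd.2
      omega
    · intro d hd
      rw [Finset.mem_filter] at hd
      exact (quot hf hd.1).2.2.2.2.2
    · intro d hd
      rw [Finset.mem_filter] at hd
      exact (quot hf hd.1).2.2.2.2.2
    · intro d hd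
      rw [Finset.mem_filter] at hd
      obtain ⟨h6, -, -, -, h5, -⟩ := quot hf hd.1
      have hsd : Squarefree (d * (f / d)) := h6.symm ▸ hs
      have h7 := mob_mul hsd
      have h8 := mob_mul_self (hs.squarefree_of_dvd (Dvd.intro _ h6) : Squarefree d)
      rw [h6, hmob] at h7
      have h9 : mob (f / d) = - mob d := by
        have h10 : mob d * (mob d * mob (f / d)) = mob d * (-1) := by rw [← h7]
        rw [← mul_assoc, h8, one_mul] at h10
        rw [h10]
        ring
      simp only [hφ]
      rw [h9]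
      have h11 : (N : ℤ) = d.natDegree + (f / d).natDegree := by
        rw [← hN, ← h5]
        push_cast
        ring
      rw [h11]
      ring
  have hsplit := Finset.sum_filter_add_sum_filter_not (mdiv f) (fun d => 2 * d.natDegree < N) φ
  rw [hflip, htot] at hsplit
  show ∑ d ∈ (mdiv f).filter (fun d => 2 * d.natDegree < N), φ d = _
  split_ifs at hsplit ⊢
  · linarith
  · linarith

end div

end Pool.Agent.H870.QF
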